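import Pool.Agent.H69.VAS.MidB
import Pool.Agent.H31.M5.H2

/-!
# (H1) of the sheets on a sub-law

`h1T : H1TStmt`.
-/

set_option autoImplicit false

namespace Pool.VAS

open Finset MvPolynomial
open Pool.Agent.H49.Ent Pool.Agent.H32.Dense Pool.STK Pool.STAT Pool.MIC Pool.MicA
open Pool.MIC.Frm (sl nat)
open Pool.BFL (Pl Pb)
open Pool.TIE (SubL)
open Pool.GSD (vtP)
open Pool.LSH (Pls SDat cl cl_eq)

namespace MB69

/-- The context and the time determine the visible record. -/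
theorem c_zv {D : NDat2} {n K J a₀ w₀ z M : ℕ} {lam gam : ℕ → ℝ} {κ C₁ : ℝ} {q : D.Ω → ℝ}
    (hO : D.Ok2 n K J a₀ w₀ z M lam gam κ C₁ q) {i j : ℕ} (hi : i ≤ M) (hj : j ≤ M) :
    Det q (fun ω => (D.c i j ω, D.T ω)) (zv D i j) := by
  intro ω ω' hω hω' e
  have e1 : D.c i j ω = D.c i j ω' := (Prod.ext_iff.1 e).1
  have e2 : D.T ω = D.T ω' := (Prod.ext_iff.1 e).2
  have h1 : D.s i j ω = D.s i j ω' := hO.s_c i hi j hj ω ω' hω hω' e
  have h0 : ∀ r : ℕ, r ≤ M → D.c r j ω = D.c r j ω' → D.c 0 j ω = D.c 0 j ω' := by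
    intro r
    induction r with
    | zero => exact fun _ h => h
    | succ r ih => exact fun hr h => ih (by omega) (hO.c_i r (by omega) j hj ω ω' hω hω' h)
  have h2 : D.s 0 j ω = D.s 0 j ω' := by
    refine hO.s_c 0 (Nat.zero_le _) j hj ω ω' hω hω' ?_
    exact Prod.ext (h0 i hi e1) e2
  exact Prod.ext (Prod.ext h1 h2) e2

/-- The shape is a function of the context, the time and the visible shape. -/
theorem kT_same {D : NDat2} {n K J a₀ w₀ z M : ℕ} {lam gam : ℕ → ℝ} {κ C₁ : ℝ} {q : D.Ω → ℝ}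
    (hO : D.Ok2 n K J a₀ w₀ z M lam gam κ C₁ q) {i j : ℕ} (hi : i ≤ M) (hj : j ≤ M) (bb : ℕ)
    {ω ω' : D.Ω} (hω : 0 < q ω) (hω' : 0 < q ω') (hc : D.c i j ω = D.c i j ω')
    (hT : D.T ω = D.T ω') {F F' : Pl (n - 1)} (hF : F = F') :
    kT D n z i j bb F ω = kT D n z i j bb F' ω' := by
  subst hF
  have h1 : D.s i j ω = D.s i j ω' := hO.s_c i hi j hj ω ω' hω hω' (Prod.ext hc hT)
  have h2 : D.Φ i j ω = D.Φ i j ω' := by
    unfold NDat2.Φ
    rw [hc]
  have h3 : D.Ψ i j ω = D.Ψ i j ω' := by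
    unfold NDat2.Ψ
    rw [h1]
  have h4 : D.X ω 0 = D.X ω' 0 := by rw [hO.X_zero, hO.X_zero, hT]
  have h5 : kTr D n z i j F ω = kTr D n z i j F ω' := by
    unfold kTr
    rw [h2, h3, h4]
  unfold kT
  rw [h5]

/-- The first digits of a number are full. -/
theorem dig_full' {Om S : Type} [Fintype Om] {p : Om → ℝ} (hp : IsLaw p) {m X : ℕ} {e : ℝ}
    (hX : X ≤ m) (t : Om → ℕ) (ht : ∀ v, t v < 2 ^ m) (L : Om → S)
    (h : (m : ℝ) * Real.log 2 - e ≤ CH p t L) :
    X * Real.log 2 - e ≤ CH p (fun v => ⌊(2 : ℝ) ^ X * (((t v % 2 ^ m : ℕ) : ℝ) / 2 ^ m)⌋) L := by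
  classical
  have h3 : (fun v => ⌊(2 : ℝ) ^ X * (((t v % 2 ^ m : ℕ) : ℝ) / 2 ^ m)⌋) =
      fun ω => ((t ω / 2 ^ (m - X) : ℕ) : ℤ) := by
    funext ω
    have e0 : t ω % 2 ^ m = t ω := Nat.mod_eq_of_lt (ht ω)
    rw [e0]
    have e1 : (2 : ℝ) ^ X * ((t ω : ℝ) / 2 ^ m) = (t ω : ℝ) / ((2 ^ (m - X) : ℕ) : ℝ) := by
      have e2 : (2 : ℝ) ^ m = 2 ^ X * 2 ^ (m - X) := by
        rw [← pow_add]
        congr 1
        omega
      rw [e2]
      push_cast
      field_simp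
    rw [e1, Int.floor_div_natCast, Int.floor_natCast]
    push_cast
    rfl
  rw [h3]
  have h1 := CH_le_add hp.nonneg t (fun ω => ((t ω / 2 ^ (m - X) : ℕ) : ℤ)) L
  have h2 : CH p t (fun ω => (((t ω / 2 ^ (m - X) : ℕ) : ℤ), L ω)) ≤
      ((m - X : ℕ) : ℝ) * Real.log 2 := by
    have k1 : CH p t (fun ω => (((t ω / 2 ^ (m - X) : ℕ) : ℤ), L ω)) ≤
        CH p (fun ω => t ω % 2 ^ (m - X)) (fun ω => (((t ω / 2 ^ (m - X) : ℕ) : ℤ), L ω)) := by
      refine CH_mono_left hp.nonneg ?_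
      intro ω ω' _ _ e
      have e1 : t ω % 2 ^ (m - X) = t ω' % 2 ^ (m - X) := (Prod.ext_iff.1 e).1
      have e2 : ((t ω / 2 ^ (m - X) : ℕ) : ℤ) = ((t ω' / 2 ^ (m - X) : ℕ) : ℤ) :=
        (Prod.ext_iff.1 (Prod.ext_iff.1 e).2).1
      have e3 : t ω / 2 ^ (m - X) = t ω' / 2 ^ (m - X) := by exact_mod_cast e2
      rw [← Nat.div_add_mod (t ω) (2 ^ (m - X)), e3, e1, Nat.div_add_mod]
    have k2 := CH_le_card hp.nonneg hp.sum_one (fun ω => t ω % 2 ^ (m - X))
      (fun ω => (((t ω / 2 ^ (m - X) : ℕ) : ℤ), L ω)) (fun _ => Finset.range (2 ^ (m - X)))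
      (fun ω _ => Finset.mem_range.2 (Nat.mod_lt _ (by positivity)))
    rw [Ex_const hp.sum_one, Finset.card_range] at k2
    push_cast at k2
    rw [Real.log_pow] at k2
    exact k1.trans k2
  have e4 : ((m - X : ℕ) : ℝ) = (m : ℝ) - X := by
    rw [Nat.cast_sub hX]
  rw [e4] at h2
  linarith

end MB69

/-- **(H1)** on a sub-law. -/
theorem h1T : H1TStmt := by
  classical
  intro n K K₀ N k D π J a₀ w₀ z M X bb lam gam κ C₁ c₁ θ ι q ω₀ a Om _ P f G hi hj hJ hc₁ hκ hO hT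
    hS hθ hι
  obtain ⟨w, hw⟩ : ∃ w, w = w₀ + π.o.2 * z := ⟨_, rfl⟩
  rw [← hw] at hJ ⊢
  have hq := hO.isLaw
  have hP := hS.isLaw
  have h0 := hP.nonneg
  have hz0 : (0 : ℝ) ≤ z := Nat.cast_nonneg z
  have hwJ : w ≤ J := by omega
  have hl0 : 0 < Real.log 2 := Real.log_pos one_lt_two
  have hl1 : Real.log 2 ≤ 1 := by
    have := Real.log_two_lt_d9
    linarith
  have hsup : ∀ v, 0 < P v → 0 < q (f v) := fun v hv => sub_pos hc₁ hS hv
  have hθ0 : 0 ≤ θ := (CH_nonneg h0 _ _).trans hθ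
  have hcw : Det q (D.wn J w) (D.c π.o.1 π.o.2) := by
    rw [hw]
    exact hO.c_wn _ hi _ hj
  have hcT : Det q (D.c π.o.1 π.o.2) (fun ω => D.T ω / 2 ^ (J - w)) := by
    rw [hw]
    exact hO.c_T _ hi _ hj
  -- the time on the sub-law
  have ht0 : ∀ v, thr D J w (f v) < 2 ^ (J - w) := fun v => Nat.mod_lt _ (by positivity)
  have htime : ((J - w : ℕ) : ℝ) * Real.log 2 - (κ * z + Real.log 2) / c₁ ≤
      CH P (fun v => thr D J w (f v)) (fun v => D.wn J w (f v)) := by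
    have h1 := Pool.TMU.CH_low hq D.T D.ln (w := w) (by rw [hw]; exact Nat.le_add_right _ _)
      hwJ hO.ln_w hT
    have h2 := sub_full hq hc₁ hS D.T (D.wn J w) (M := ((J - w : ℕ) : ℝ) * Real.log 2)
      (θ := κ * z) (by positivity) (fun Ω'' _ r g hr => MB69.CH_T_le D J w hr g) h1
    refine h2.trans (CH_mono_left h0 ?_)
    intro v v' _ _ e
    have e1 : thr D J w (f v) = thr D J w (f v') := (Prod.ext_iff.1 e).1
    have e2 : D.T (f v) / 2 ^ (J - w) = D.T (f v') / 2 ^ (J - w) :=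
      (Prod.ext_iff.1 (Prod.ext_iff.1 e).2).2
    unfold thr at e1
    show D.T (f v) = D.T (f v')
    rw [← Nat.div_add_mod (D.T (f v)) (2 ^ (J - w)), e2, e1, Nat.div_add_mod]
  have herr : (κ * z + Real.log 2) / c₁ + θ + 2 ≤ ι * X * Real.log 2 := by
    have : (κ * z + Real.log 2) / c₁ ≤ (κ * z + 2) / c₁ :=
      div_le_div_of_nonneg_right (by linarith) hc₁.le
    linarith
  have herr0 : 0 ≤ (κ * z + Real.log 2) / c₁ := by positivity
  have hιX : 0 ≤ ι * X := by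
    by_contra hcon
    push Not at hcon
    have : ι * X * Real.log 2 < 0 := mul_neg_of_neg_of_pos hcon hl0
    linarith
  have hιX' : ι * X * Real.log 2 ≤ ι * X := by nlinarith
  have hTeq : ∀ v v', 0 < P v → 0 < P v' → D.c π.o.1 π.o.2 (f v) = D.c π.o.1 π.o.2 (f v') →
      thr D J w (f v) = thr D J w (f v') → D.T (f v) = D.T (f v') := by
    intro v v' hv hv' e1 e2
    have e3 : D.T (f v) / 2 ^ (J - w) = D.T (f v') / 2 ^ (J - w) :=
      hcT _ _ (hsup v hv) (hsup v' hv') e1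
    unfold thr at e2
    rw [← Nat.div_add_mod (D.T (f v)) (2 ^ (J - w)), e3, e2, Nat.div_add_mod]
  -- the shape has few bits
  have hG : CH P G (fun v => (D.c π.o.1 π.o.2 (f v), thr D J w (f v))) ≤ θ := by
    refine le_trans (CH_mono_cond h0 ?_) hθ
    intro v v' hv hv' e
    have e1 : D.c π.o.1 π.o.2 (f v) = D.c π.o.1 π.o.2 (f v') := (Prod.ext_iff.1 e).1
    exact MB69.c_zv hO hi hj _ _ (hsup v hv) (hsup v' hv')
      (Prod.ext e1 (hTeq v v' hv hv' e1 (Prod.ext_iff.1 e).2))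
  have hk : CH P (fun v => kT D n z π.o.1 π.o.2 bb (G v) (f v))
      (fun v => (D.c π.o.1 π.o.2 (f v), thr D J w (f v))) ≤ θ := by
    refine le_trans (CH_mono_left h0 ?_) hG
    intro v v' hv hv' e
    have e0 : G v = G v' := (Prod.ext_iff.1 e).1
    have e1 := Prod.ext_iff.1 (Prod.ext_iff.1 e).2
    exact MB69.kT_same hO hi hj bb (hsup v hv) (hsup v' hv') e1.1
      (hTeq v v' hv hv' e1.1 e1.2) e0
  constructor
  · -- mutual information
    show Pool.KVA.MI P (fun v => (D.c π.o.1 π.o.2 (f v), (thr D J w (f v),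
      kT D n z π.o.1 π.o.2 bb (G v) (f v)))) (fun v => D.wn J w (f v))
      (fun v => cl D q J w ω₀ π.o (D.wn J w (f v))) ≤ ι * X
    have hB : ∀ v, 0 < P v → cl D q J w ω₀ π.o (D.wn J w (f v)) = D.c π.o.1 π.o.2 (f v) :=
      fun v hv => cl_eq ω₀ hcw (hsup v hv)
    rw [Pool.M5.MI_eq h0]
    have h1 : CH P (fun v => (D.c π.o.1 π.o.2 (f v), (thr D J w (f v),
        kT D n z π.o.1 π.o.2 bb (G v) (f v)))) (fun v => cl D q J w ω₀ π.o (D.wn J w (f v))) ≤
        ((J - w : ℕ) : ℝ) * Real.log 2 + θ := by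
      have k1 := CH_chain h0 (fun v => kT D n z π.o.1 π.o.2 bb (G v) (f v))
        (fun v => thr D J w (f v)) (fun v => cl D q J w ω₀ π.o (D.wn J w (f v)))
      have k2 : CH P (fun v => (D.c π.o.1 π.o.2 (f v), (thr D J w (f v),
          kT D n z π.o.1 π.o.2 bb (G v) (f v)))) (fun v => cl D q J w ω₀ π.o (D.wn J w (f v))) ≤
          CH P (fun v => (kT D n z π.o.1 π.o.2 bb (G v) (f v), thr D J w (f v)))
            (fun v => cl D q J w ω₀ π.o (D.wn J w (f v))) := by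
        refine CH_mono_left h0 ?_
        intro v v' hv hv' e
        have l1 := Prod.ext_iff.1 (Prod.ext_iff.1 e).1
        have l2 : cl D q J w ω₀ π.o (D.wn J w (f v)) = cl D q J w ω₀ π.o (D.wn J w (f v')) :=
          (Prod.ext_iff.1 e).2
        rw [hB v hv, hB v' hv'] at l2
        exact Prod.ext l2 (Prod.ext l1.2 l1.1)
      have k3 : CH P (fun v => kT D n z π.o.1 π.o.2 bb (G v) (f v))
          (fun v => (thr D J w (f v), cl D q J w ω₀ π.o (D.wn J w (f v)))) ≤ θ := by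
        refine le_trans (CH_mono_cond h0 ?_) hk
        intro v v' hv hv' e
        have l2 : cl D q J w ω₀ π.o (D.wn J w (f v)) = cl D q J w ω₀ π.o (D.wn J w (f v')) :=
          (Prod.ext_iff.1 e).2
        rw [hB v hv, hB v' hv'] at l2
        exact Prod.ext l2 (Prod.ext_iff.1 e).1
      have k4 : CH P (fun v => thr D J w (f v))
          (fun v => cl D q J w ω₀ π.o (D.wn J w (f v))) ≤ ((J - w : ℕ) : ℝ) * Real.log 2 := by
        have h2 := CH_le_card h0 hP.sum_one (fun v => thr D J w (f v))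
          (fun v => cl D q J w ω₀ π.o (D.wn J w (f v))) (fun _ => range (2 ^ (J - w)))
          (fun v _ => mem_range.2 (ht0 v))
        rw [Ex_const hP.sum_one, card_range] at h2
        push_cast at h2
        rwa [Real.log_pow] at h2
      linarith
    have h2 : CH P (fun v => thr D J w (f v)) (fun v => D.wn J w (f v)) ≤
        CH P (fun v => (D.c π.o.1 π.o.2 (f v), (thr D J w (f v),
          kT D n z π.o.1 π.o.2 bb (G v) (f v))))
          (fun v => (D.wn J w (f v), cl D q J w ω₀ π.o (D.wn J w (f v)))) := by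
      have k1 : CH P (fun v => thr D J w (f v)) (fun v => D.wn J w (f v)) ≤
          CH P (fun v => thr D J w (f v))
            (fun v => (D.wn J w (f v), cl D q J w ω₀ π.o (D.wn J w (f v)))) := by
        refine CH_mono_cond h0 ?_
        intro v v' _ _ e
        have e' : D.wn J w (f v) = D.wn J w (f v') := e
        show (D.wn J w (f v), cl D q J w ω₀ π.o (D.wn J w (f v))) =
          (D.wn J w (f v'), cl D q J w ω₀ π.o (D.wn J w (f v')))
        rw [e']
      refine k1.trans (CH_mono_left h0 ?_)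
      intro v v' _ _ e
      exact (Prod.ext_iff.1 (Prod.ext_iff.1 (Prod.ext_iff.1 e).1).2).1
    linarith
  · -- the digits of the time
    have h1 := MB69.dig_full' hP (m := J - w) (X := X) (by omega) (fun v => thr D J w (f v)) ht0
      (fun v => D.wn J w (f v)) htime
    show (1 - ι) * (X : ℝ) * Real.log 2 ≤
      CH P (fun v => ⌊(2 : ℝ) ^ X * thq J w (thr D J w (f v))⌋) (fun v => D.wn J w (f v))
    refine le_trans ?_ h1
    linarith

end Pool.VAS
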