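import Pool.Agent.H19.VAS.Obj
import Pool.Agent.H19.VAS.SubT
import Pool.Agent.H46.MicA.Loc

/-!
# The middle for the true path

`midB : MidBStmt`: all fields of `MidH` but the values and the few bits, for the scaled position in
the base, the shape `kT` and the true path.
-/

set_option autoImplicit false

namespace Pool.VAS.MB69

open Finset MvPolynomial
open Pool.Agent.H49.Ent Pool.Agent.H32.Dense Pool.STK Pool.STAT Pool.MIC Pool.MicA
open Pool.MIC.Frm (sl nat)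
open Pool.BFL (Pl Pb)
open Pool.TIE (SubL)
open Pool.GSD (vtP)
open Pool.LSH (rtr)

section

variable {D : NDat2} {n K J a₀ w₀ z M : ℕ} {lam gam : ℕ → ℝ} {κ C₁ : ℝ} {q : D.Ω → ℝ}

/-- The degree of the shape. -/
theorem kTr_deg (hO : D.Ok2 n K J a₀ w₀ z M lam gam κ C₁ q) {K' i j : ℕ} {F : Pl (n - 1)}
    (hF : F.totalDegree ≤ K') (ω : D.Ω) : (kTr D n z i j F ω).totalDegree ≤ dT n K K' := by
  unfold kTr
  refine (deg_scl _ _ _).trans ((totalDegree_mul _ _).trans ?_)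
  rw [totalDegree_C, zero_add]
  refine (Pool.MIC.Frm.deg_sl _ _).trans ?_
  unfold dT
  refine Pool.MIC.Frm.deg_fr (Pool.MIC.Fru.atT_tri (hO.P_tri i j _) _)
    (Pool.MIC.Fru.atT_deg (fun k _ => hO.P_deg i j _ k) _)
    (AdxRow.vars_sub_le (Pool.GSD.vtP_vars (hO.G_tri i j _) F) (hO.P_tri i j _ n)) ?_
  refine (totalDegree_sub _ _).trans (max_le ?_ ((hO.P_deg i j _ n).trans (Nat.le_add_right _ _)))
  exact Pool.GSD.vtP_deg (fun l => hO.G_deg i j _ l) hF

theorem kT_deg (hO : D.Ok2 n K J a₀ w₀ z M lam gam κ C₁ q) {K' i j : ℕ} (bb : ℕ)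
    {F : Pl (n - 1)} (hF : F.totalDegree ≤ K') (ω : D.Ω) :
    (kT D n z i j bb F ω).totalDegree ≤ dT n K K' := by
  classical
  unfold kT
  split_ifs
  · exact kTr_deg hO hF ω
  · rw [totalDegree_zero]
    exact Nat.zero_le _

theorem kT_cf (D : NDat2) (n z i j bb : ℕ) (F : Pl (n - 1)) (ω : D.Ω)
    (α : Fin (n - 1) →₀ ℕ) : |coeff α (kT D n z i j bb F ω)| ≤ 2 ^ bb := by
  classical
  unfold kT
  split_ifs with h
  · exact h α
  · rw [coeff_zero, abs_zero]
    positivity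

/-- The base digits at any precision. -/
theorem vd_full (hO : D.Ok2 n K J a₀ w₀ z M lam gam κ C₁ q) {i j X : ℕ} (hz : 1 ≤ z)
    (hj : j ≤ M) (hX : i * z + X ≤ M * z) :
    ((n - 1 : ℕ) : ℝ) * (X * Real.log 2) - (n + κ) * z ≤
      CH q (D.vd n i j X) (fun ω => (D.c i j ω, D.T ω)) := by
  have hz0 : (0 : ℝ) ≤ z := Nat.cast_nonneg z
  obtain ⟨U, hU⟩ : ∃ U, U = X / z := ⟨_, rfl⟩
  have h1 : U * z ≤ X := by
    rw [hU]
    exact Nat.div_mul_le_self _ _
  have h2 : X ≤ U * z + z := by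
    have := Nat.lt_div_mul_add (a := X) (b := z) (by omega)
    rw [hU]
    omega
  have h3 : i + U ≤ M := by
    have h4 : (i + U) * z ≤ M * z := by
      rw [add_mul]
      omega
    exact Nat.le_of_mul_le_mul_right h4 (by omega)
  have h5 := hO.full i (by omega) j hj U h3
  have h6 : CH q (D.vd n i j (U * z)) (fun ω => (D.c i j ω, D.T ω)) ≤
      CH q (D.vd n i j X) (fun ω => (D.c i j ω, D.T ω)) := by
    refine CH_mono_left hO.isLaw.nonneg ?_
    intro ω ω' _ _ e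
    have e1 : D.vd n i j X ω = D.vd n i j X ω' := (Prod.ext_iff.1 e).1
    funext l
    have e2 := congrFun e1 l
    unfold NDat2.vd at e2 ⊢
    obtain ⟨r, hr⟩ : ∃ r, X = U * z + r := ⟨X - U * z, by omega⟩
    have e3 : ∀ x : ℝ, ⌊(2 : ℝ) ^ (D.g i j (l + 1) + U * z) * x⌋ =
        ⌊(2 : ℝ) ^ (D.g i j (l + 1) + X) * x⌋ / ((2 ^ r : ℕ) : ℤ) := by
      intro x
      rw [← Int.floor_div_natCast, hr]
      congr 1
      push_cast
      rw [← add_assoc, pow_add _ _ r]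
      field_simp
    rw [e3, e3, e2]
  have h7 : (X : ℝ) ≤ U * z + z := by exact_mod_cast h2
  have hl0 : 0 < Real.log 2 := Real.log_pos one_lt_two
  have hl1 : Real.log 2 ≤ 1 := by
    have := Real.log_two_lt_d9
    linarith
  have hn0 : (0 : ℝ) ≤ ((n - 1 : ℕ) : ℝ) := Nat.cast_nonneg _
  have hn1 : ((n - 1 : ℕ) : ℝ) ≤ n := by exact_mod_cast Nat.sub_le n 1
  have h8 : ((n - 1 : ℕ) : ℝ) * (X * Real.log 2) ≤
      ((n - 1 : ℕ) : ℝ) * (U * z) * Real.log 2 + ((n - 1 : ℕ) : ℝ) * (z * Real.log 2) := by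
    have := mul_le_mul_of_nonneg_left (mul_le_mul_of_nonneg_right h7 hl0.le) hn0
    linarith
  have h9 : ((n - 1 : ℕ) : ℝ) * (z * Real.log 2) ≤ n * z := by
    refine mul_le_mul hn1 ?_ (by positivity) (Nat.cast_nonneg _)
    nlinarith
  linarith

/-- The position at any precision, on the law of the cell. -/
theorem Y_full (n K : ℕ) (hn : 1 ≤ n) : ∃ C : ℝ, 1 ≤ C ∧
    ∀ {D : NDat2} {J a₀ w₀ z M i j X : ℕ} {lam gam : ℕ → ℝ} {κ C₁ : ℝ} {q : D.Ω → ℝ},
      D.Ok2 n K J a₀ w₀ z M lam gam κ C₁ q → 1 ≤ z → i ≤ M → j ≤ M → i * z + X ≤ M * z →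
      ((n - 1 : ℕ) : ℝ) * (X * Real.log 2) - (C + κ) * z ≤
        CH q (Y1 D n z i j X)
          (fun ω => (D.c i j ω, Pool.TMS.rt D.T J (w₀ + j * z) ω)) := by
  obtain ⟨C, hC, h⟩ := conv n K
  refine ⟨n + 2 * C, by
    have : (0 : ℝ) ≤ n := Nat.cast_nonneg n
    linarith, ?_⟩
  intro D J a₀ w₀ z M i j X lam gam κ C₁ q hO hz hi hj hX
  have hq := hO.isLaw.nonneg
  have hzR : (1 : ℝ) ≤ z := by exact_mod_cast hz
  have h1 := vd_full hO hz hj hX
  have h2 := (h hO hi hj hn X).2.1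
  have h3 := CH_le_add hq (D.vd n i j X) (Yp D n z i j X) (fun ω => (D.c i j ω, D.T ω))
  have h4 : CH q (Yp D n z i j X) (fun ω => (D.c i j ω, D.T ω)) =
      CH q (Y1 D n z i j X) (fun ω => (D.c i j ω, D.T ω)) :=
    CH_ae hq (fun ω hω => (Y1_eq hO hi hj hω X).symm) fun _ _ => rfl
  have h5 : CH q (Y1 D n z i j X) (fun ω => (D.c i j ω, D.T ω)) ≤
      CH q (Y1 D n z i j X) (fun ω => (D.c i j ω, Pool.TMS.rt D.T J (w₀ + j * z) ω)) := by
    refine CH_mono_cond hq fun ω ω' _ _ e => ?_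
    have e1 : D.c i j ω = D.c i j ω' := (Prod.ext_iff.1 e).1
    have e2 : D.T ω = D.T ω' := (Prod.ext_iff.1 e).2
    refine Prod.ext e1 ?_
    unfold Pool.TMS.rt
    simp only
    rw [e2]
  nlinarith

/-- The number of the positions. -/
theorem CH_Y_le (D : NDat2) (n z i j X : ℕ) {β Ω' : Type} [Fintype Ω'] {r : Ω' → ℝ}
    (hr : IsLaw r) (g : Ω' → D.Ω) (W : Ω' → β) :
    CH r (fun v => Y1 D n z i j X (g v)) W ≤ ((n - 1 : ℕ) : ℝ) * (X * Real.log 2) := by
  classical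
  have h1 := CH_le_card hr.nonneg hr.sum_one (fun v => Y1 D n z i j X (g v)) W
    (fun _ => Fintype.piFinset fun _ => Finset.range (2 ^ X)) (fun ω _ => by
      rw [Fintype.mem_piFinset]
      intro l
      exact Finset.mem_range.2 (Y1_lt D n z i j X _ l))
  refine h1.trans (le_of_eq ?_)
  rw [Ex_const hr.sum_one, Fintype.card_piFinset, Finset.prod_const, Finset.card_univ,
    Fintype.card_fin, Finset.card_range]
  push_cast
  rw [Real.log_pow, Real.log_pow]

/-- The number of the times of a window. -/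
theorem CH_T_le (D : NDat2) (J w : ℕ) {Ω' : Type} [Fintype Ω'] {r : Ω' → ℝ}
    (hr : IsLaw r) (g : Ω' → D.Ω) :
    CH r (fun v => D.T (g v)) (fun v => D.wn J w (g v)) ≤ ((J - w : ℕ) : ℝ) * Real.log 2 := by
  classical
  have h0 : CH r (fun v => D.T (g v)) (fun v => D.wn J w (g v)) ≤
      CH r (fun v => thr D J w (g v)) (fun v => D.wn J w (g v)) := by
    refine CH_mono_left hr.nonneg ?_
    intro ω ω' _ _ e
    have e1 : thr D J w (g ω) = thr D J w (g ω') := (Prod.ext_iff.1 e).1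
    have e2 : D.T (g ω) / 2 ^ (J - w) = D.T (g ω') / 2 ^ (J - w) :=
      (Prod.ext_iff.1 (Prod.ext_iff.1 e).2).2
    unfold thr at e1
    show D.T (g ω) = D.T (g ω')
    rw [← Nat.div_add_mod (D.T (g ω)) (2 ^ (J - w)), e2, e1, Nat.div_add_mod]
  refine h0.trans ?_
  have h1 := CH_le_card hr.nonneg hr.sum_one (fun v => thr D J w (g v))
    (fun v => D.wn J w (g v)) (fun _ => Finset.range (2 ^ (J - w))) (fun ω _ => by
      rw [Finset.mem_range]
      exact Nat.mod_lt _ (by positivity))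
  refine h1.trans (le_of_eq ?_)
  rw [Ex_const hr.sum_one, Finset.card_range]
  push_cast
  rw [Real.log_pow]

end

end Pool.VAS.MB69

namespace Pool.VAS

open Finset MvPolynomial
open Pool.Agent.H49.Ent Pool.Agent.H32.Dense Pool.STK Pool.STAT Pool.MIC Pool.MicA
open Pool.MIC.Frm (sl nat)
open Pool.BFL (Pl Pb)
open Pool.TIE (SubL)
open Pool.GSD (vtP)
open Pool.LSH (rtr)

/-- **The middle for the true path.** -/
theorem midB : MidBStmt := by
  classical
  intro n K K' lam gam C₁ hn hC₁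
  obtain ⟨E, hE⟩ := path2_thm n K lam gam C₁ hn hC₁
  obtain ⟨C, hC, hY⟩ := MB69.Y_full n K hn
  refine ⟨E, 1, C + 1, le_rfl, by linarith, ?_⟩
  intro M η _ hη
  obtain ⟨κ₁, z₁, hκ₁, hE1⟩ := hE η hη
  refine ⟨min κ₁ 1, max z₁ 1, lt_min hκ₁ one_pos, ?_⟩
  intro J a₀ w₀ z X i j bb κ c₁ D q Om _ P f G hz hzX hκ hκ0 hX hj hc₁ hO hT hS hG
  have hz1 : z₁ ≤ z := (le_max_left _ _).trans hz
  have hz2 : 1 ≤ z := (le_max_right _ _).trans hz
  have hz0 : (0 : ℝ) ≤ z := Nat.cast_nonneg z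
  have hX0 : (0 : ℝ) ≤ X := Nat.cast_nonneg X
  have hq := hO.isLaw
  have hP := hS.isLaw
  have hκ1 : κ ≤ 1 := hκ.trans (min_le_right _ _)
  have hi : i ≤ M := by
    have h1 : i * z ≤ M * z := by omega
    exact Nat.le_of_mul_le_mul_right h1 (by omega)
  obtain ⟨w, hw⟩ : ∃ w, w = w₀ + j * z := ⟨_, rfl⟩
  have hwJ : w ≤ J := by
    have h1 := hO.thin
    have h2 := hO.top
    have h3 : j * z ≤ (M + 1) * z := Nat.mul_le_mul_right _ (by omega)
    rw [hw]
    omega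
  have hT1 : D.TmU J w₀ z κ₁ q := by
    unfold NDat2.TmU at hT ⊢
    have : κ * (z : ℝ) ≤ κ₁ * z :=
      mul_le_mul_of_nonneg_right (hκ.trans (min_le_left _ _)) hz0
    linarith
  obtain ⟨β, hβ1, hβ2⟩ := hE1 J a₀ w₀ z M i j D q hz1 hi hj.le
    (hO.mono_κ (hκ.trans (min_le_left _ _))) hT1
  refine ⟨fun v => Y1 D n z i j X (f v), β, ?_⟩
  intro ϖ κ₂ e nn m s GG hGG he hfew hvals
  rw [← hw] at hβ1 hβ2 hfew hvals ⊢
  have hηc : 0 < η / c₁ := div_pos hη hc₁
  have hsup : ∀ v, 0 < P v → 0 < q (f v) := fun v hv => sub_pos hc₁ hS hv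
  have hrt : ∀ v, rtr (fun v => D.T (f v)) J w v = (thr D J w (f v) : ℝ) / 2 ^ (J - w) :=
    fun v => rfl
  have hl1 : Real.log 2 ≤ 1 := by
    have := Real.log_two_lt_d9
    linarith
  have hpos : ∀ v, 0 < P v → Pool.LBL.pos (β (D.wn J w (f v))) (rtr (fun v => D.T (f v)) J w v) =
      fun l : Fin (n - 1) => up z (zt D i j (f v) (l + 1)) := fun v hv => by
    rw [hrt]
    exact funext (hβ1 (f v) (hsup v hv))
  refine ⟨hP, ?_, ?_, ?_, ?_, ?_, ?_, ?_, ?_, hGG, hfew, ?_, ?_⟩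
  · have h1 := hO.c_wn i hi j hj.le
    rw [← hw] at h1
    exact sub_det hc₁ hS h1
  · intro v v' _ _ e1
    exact (Prod.ext_iff.1 e1).2
  · -- the time
    have h1 := Pool.TMU.CH_low hq D.T D.ln (w := w) (by rw [hw]; exact Nat.le_add_right _ _)
      hwJ hO.ln_w hT
    have h2 := sub_full hq hc₁ hS D.T (D.wn J w) (M := ((J - w : ℕ) : ℝ) * Real.log 2)
      (θ := κ * z) (by
        have : 0 ≤ Real.log 2 := Real.log_nonneg one_le_two
        positivity) (fun Ω'' _ r g hr => MB69.CH_T_le D J w hr g) h1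
    refine le_trans ?_ h2
    have h3 : (κ * z + Real.log 2) / c₁ ≤ ((C + 1) * z + η * X + 2) / c₁ := by
      refine div_le_div_of_nonneg_right ?_ hc₁.le
      have h4 : κ * z ≤ 1 * z := mul_le_mul_of_nonneg_right hκ1 hz0
      have h5 : 0 ≤ η * X := by positivity
      have h6 : 0 ≤ C * z := by positivity
      linarith
    linarith
  · -- the position is a function of the line and of the time
    have h1 := Y_det hO hi hj.le w X
    exact sub_det hc₁ hS h1
  · intro v l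
    exact Y1_lt D n z i j X _ l
  · intro v
    exact MB69.kT_deg hO bb (hG v) _
  · intro v α _
    exact MB69.kT_cf D n z i j bb _ _ α
  · -- fullness
    have h1 := hY hO hz2 hi hj.le hX
    rw [← hw] at h1
    have h2 := sub_full hq hc₁ hS (Y1 D n z i j X)
      (fun ω => (D.c i j ω, Pool.TMS.rt D.T J w ω))
      (M := ((n - 1 : ℕ) : ℝ) * (X * Real.log 2)) (θ := (C + κ) * z) (by
        have : 0 ≤ Real.log 2 := Real.log_nonneg one_le_two
        positivity) (fun Ω'' _ r g hr => MB69.CH_Y_le D n z i j X hr g _) h1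
    refine le_trans ?_ h2
    have h3 : ((C + κ) * z + Real.log 2) / c₁ ≤ ((C + 1) * z + η * X + 2) / c₁ := by
      refine div_le_div_of_nonneg_right ?_ hc₁.le
      have h4 : (C + κ) * z ≤ (C + 1) * z := mul_le_mul_of_nonneg_right (by linarith) hz0
      have h5 : 0 ≤ η * X := by positivity
      linarith
    linarith
  · -- the path
    have h1 := sub_bad hq hc₁ hS (fun ω => ¬ ∀ l a, |β (D.wn J w ω) l a| ≤ 1)
    have h2 : Pb q (fun ω => ¬ ∀ l a, |β (D.wn J w ω) l a| ≤ 1) / c₁ ≤ η / c₁ :=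
      div_le_div_of_nonneg_right hβ2 hc₁.le
    refine le_trans (Pb_mono_ae hP.nonneg fun v hv hb => ?_)
      (h1.trans (h2.trans (by linarith)))
    intro hcon
    refine hb.2 ⟨hcon, fun l => ?_⟩
    rw [hpos v hv, Y1_eq hO hi hj.le (hsup v hv)]
    have h4 := Yp_near hO hi hj.le (hsup v hv) X l
    rw [abs_of_nonneg h4.1]
    exact h4.2.1
  · -- the values
    obtain ⟨u, hu, g, hg, h3⟩ := hvals
    refine ⟨u, hu, g, hg, le_trans (Pb_mono_ae hP.nonneg fun v hv hb => ⟨hb.1, ?_⟩)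
      (h3.trans (by linarith))⟩
    rw [← hpos v hv]
    exact hb.2

end Pool.VAS
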